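import Pool.Agent.Helper75.SR.Goals2
import Pool.Agent.Helper54.SRD.Basic

/-! Packet SR-GEF (helper75, MP_d08e19): the frame field of a geodesic. -/

namespace Pool.Agent.Helper53.SR

open scoped ContDiff Topology Manifold Matrix
open Set Real Pool.Agent.Helper54.SRD Pool.Agent.Helper75.SR

theorem gEF (hA : GAlg) : GEF := by
  intro E _ _ _ M _ _ _ S β γ a b τ w hβ hτ hτ2 hG t ht
  obtain ⟨hγc, hG'⟩ := hG t ht
  refine ⟨hγc, ?_⟩
  intro x hx
  obtain ⟨hc2, hGb, hW, hEq⟩ := hG' x hx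
  have hτ0 : τ ≠ 0 := hτ.ne'
  set B := bx E γ x with hB
  set L := S.loc x with hL
  have hBt : B t ∈ tgt E x := ch_mem hx
  set T := deriv B t with hT
  have hTx : T ∈ (univ : Set E) := mem_univ _
  -- smoothness
  have hcB : ContDiffAt ℝ 1 (deriv B) t := by
    have h1 : ContDiffAt ℝ 1 (fderiv ℝ B) t := hc2.fderiv_right (by norm_num)
    have h2 : deriv B = fun s => fderiv ℝ B s 1 := by
      funext s
      exact (fderiv_apply_one_eq_deriv).symm
    rw [h2]
    exact h1.clm_apply contDiffAt_const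
  have hxi : ContDiffAt ℝ ∞ (L.xi 0) (B t) :=
    (L.xi_smooth 0).contDiffAt (L.isOpen.mem_nhds hBt)
  have hxiB : ContDiffAt ℝ 1 (fun s => L.xi 0 (B s)) t :=
    (hxi.of_le (by exact_mod_cast le_top)).comp t (hc2.of_le (by norm_num))
  have hBd : HasDerivAt B T t := (hc2.differentiableAt (by norm_num)).hasDerivAt
  have hTd : HasDerivAt (deriv B) (deriv (deriv B) t) t :=
    (hcB.differentiableAt (by norm_num)).hasDerivAt
  have hxid : HasDerivAt (fun s => L.xi 0 (B s)) (fderiv ℝ (L.xi 0) (B t) T) t :=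
    (hxi.differentiableAt (by simp)).hasFDerivAt.comp_hasDerivAt t hBd
  have he_def : eF S γ τ w x = fun s => τ⁻¹ • (deriv B s - w • L.xi 0 (B s)) := rfl
  have he_t : eF S γ τ w x t = τ⁻¹ • (T - w • L.xi 0 (B t)) := rfl
  have hed : HasDerivAt (eF S γ τ w x)
      (τ⁻¹ • (deriv (deriv B) t - w • fderiv ℝ (L.xi 0) (B t) T)) t := by
    rw [he_def]
    exact (hTd.sub (hxid.const_smul w)).const_smul τ⁻¹
  have horth := L.orth (B t) hBt
  have h00 : L.g (B t) (L.xi 0 (B t)) (L.xi 0 (B t)) = 1 := by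
    have := horth 0 0
    simpa using this
  have hW0 : L.g (B t) (L.xi 0 (B t)) T = w := by
    have := hW 0
    simpa using this
  have hT0 : L.g (B t) T (L.xi 0 (B t)) = w := by
    rw [L.g_symm _ hBt]; exact hW0
  have hTT : L.g (B t) T T = 1 - β * w ^ 2 := by
    have h1 := hGb
    rw [LocSas.Gb_apply] at h1
    have h2 : ∑ a : Fin 3, L.g (B t) (L.xi a (B t)) T * L.g (B t) (L.xi a (B t)) T = w ^ 2 := by
      rw [Fin.sum_univ_three, hW 0, hW 1, hW 2]
      simp
      ring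
    rw [h2] at h1
    linarith
  have hTe : T = τ • eF S γ τ w x t + w • L.xi 0 (B t) := by
    rw [he_t, smul_smul, mul_inv_cancel₀ hτ0, one_smul, sub_add_cancel]
  have hphi0 : L.phi 0 (B t) (L.xi 0 (B t)) = 0 := (hA E _ L (B t) hBt 0 0).1
  refine ⟨hc2, ?_, ?_, ?_, hTe, ?_, ?_⟩
  · rw [he_def]
    exact (hcB.sub (hxiB.const_smul w)).const_smul τ⁻¹
  · intro i
    rw [he_t, map_smul, map_sub, map_smul, hW i, horth i 0]
    fin_cases i <;> simp
  · rw [he_t]
    have e1 : L.g (B t) (τ⁻¹ • (T - w • L.xi 0 (B t))) (τ⁻¹ • (T - w • L.xi 0 (B t)))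
        = τ⁻¹ * (τ⁻¹ * (L.g (B t) T T - w * L.g (B t) T (L.xi 0 (B t))
          - w * (L.g (B t) (L.xi 0 (B t)) T - w * L.g (B t) (L.xi 0 (B t)) (L.xi 0 (B t))))) := by
      simp only [map_smul, map_sub, ContinuousLinearMap.smul_apply,
        ContinuousLinearMap.sub_apply, smul_eq_mul]
      ring
    rw [e1, hTT, hT0, hW0, h00]
    have e2 : (1 - β * w ^ 2 - w * w - w * (w - w * 1)) = τ ^ 2 := by
      rw [hτ2]; ring
    rw [e2]
    field_simp
  · rw [hed.deriv]
    have e1 : L.D (B t) T (eF S γ τ w x t)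
        (τ⁻¹ • (deriv (deriv B) t - w • fderiv ℝ (L.xi 0) (B t) T))
        = τ⁻¹ • ((deriv (deriv B) t + L.Gam (B t) T T)
          - w • (fderiv ℝ (L.xi 0) (B t) T + L.Gam (B t) T (L.xi 0 (B t)))) := by
      unfold LocSas.D
      rw [he_t, map_smul, map_sub, map_smul]
      module
    have e2 : fderiv ℝ (L.xi 0) (B t) T + L.Gam (B t) T (L.xi 0 (B t)) = - L.phi 0 (B t) T := by
      unfold LocSas.phi
      rw [phiOf_apply, neg_neg]
    have e3 : ∑ i : Fin 3, (![w, 0, 0] : Fin 3 → ℝ) i • L.phi i (B t) T = w • L.phi 0 (B t) T := by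
      rw [Fin.sum_univ_three]
      simp
    have e4 : L.phi 0 (B t) T = τ • L.phi 0 (B t) (eF S γ τ w x t) := by
      conv_lhs => rw [hTe]
      rw [map_add, map_smul, map_smul, hphi0, smul_zero, add_zero]
    rw [e1, e2, hEq, e3, e4]
    have e5 : τ⁻¹ * τ = 1 := inv_mul_cancel₀ hτ0
    have e6 : τ⁻¹ • ((2 * β) • w • τ • L.phi 0 (B t) (eF S γ τ w x t)
        - w • -(τ • L.phi 0 (B t) (eF S γ τ w x t)))
        = ((τ⁻¹ * τ) * (2 * β * w + w)) • L.phi 0 (B t) (eF S γ τ w x t) := by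
      module
    rw [e6, e5]
    congr 1
    ring
  · intro y hy
    have hov : B t ∈ (ov x y : Set E) := mem_ov hx hy
    have htrB : tr x y (B t) = bx E γ y t := tr_ch hx
    have hcongr : bx E γ y =ᶠ[𝓝 t] fun s => tr x y (B s) := by
      filter_upwards [hγc.preimage_mem_nhds ((isOpen_src x).mem_nhds hx)] with s hs
      exact (tr_ch hs).symm
    have hd : HasDerivAt (fun s => tr x y (B s)) (fderiv ℝ (tr x y) (B t) T) t :=
      (differentiableAt_tr hov).hasFDerivAt.comp_hasDerivAt t hBd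
    have hd' : deriv (bx E γ y) t = fderiv ℝ (tr x y) (B t) T := by
      rw [hcongr.deriv_eq]
      exact hd.deriv
    have hxit := S.xi_trans x y (B t) hov 0
    show τ⁻¹ • (deriv (bx E γ y) t - w • (S.loc y).xi 0 (bx E γ y t))
      = fderiv ℝ (tr x y) (B t) (eF S γ τ w x t)
    rw [he_t, map_smul, map_sub, map_smul, hxit, htrB, hd']

end Pool.Agent.Helper53.SR
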